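import Pool.Agent.Helper9.Ends.Defs

/-!
# EN-4d: the Riemann mapping theorem for bounded domains (black boxes as hypotheses)
-/

set_option autoImplicit false

open Set Filter Metric Topology MeasureTheory

namespace Pool.Agent.EN

/-- The Riemann mapping theorem for a bounded domain with primitives, from the four black boxes
EN-4a (Montel), EN-4b (Hurwitz), EN-4c (Koebe's square root trick) and EN-5 (openness). -/
theorem riemann_map_of {D : Set ℂ}
    (h4a : ∀ (F : ℕ → ℂ → ℂ), (∀ n, DifferentiableOn ℂ (F n) D) →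
      (∀ n, ∀ z ∈ D, ‖F n z‖ ≤ 1) → ∀ (U : Ultrafilter ℕ),
      ∃ f : ℂ → ℂ, TendstoLocallyUniformlyOn F f (U : Filter ℕ) D)
    (h4b : ∀ (l : Filter ℕ) [l.NeBot] (F : ℕ → ℂ → ℂ) (f : ℂ → ℂ),
      (∀ n, DifferentiableOn ℂ (F n) D) → (∀ n, InjOn (F n) D) →
      TendstoLocallyUniformlyOn F f l D → (∃ z ∈ D, deriv f z ≠ 0) → InjOn f D)
    (h4c : ∀ (f : ℂ → ℂ), DifferentiableOn ℂ f D → InjOn f D → MapsTo f D (ball 0 1) →
      ∀ (z₀ : ℂ), z₀ ∈ D → f z₀ = 0 → deriv f z₀ ≠ 0 → ∀ (w : ℂ), w ∈ ball (0 : ℂ) 1 →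
      w ∉ f '' D → ∃ ψ : ℂ → ℂ, DifferentiableOn ℂ ψ D ∧ InjOn ψ D ∧ MapsTo ψ D (ball 0 1) ∧
        ψ z₀ = 0 ∧ ‖deriv f z₀‖ < ‖deriv ψ z₀‖)
    (h5 : ∀ (f : ℂ → ℂ), DifferentiableOn ℂ f D → InjOn f D → IsOpen (f '' D))
    (hD : IsOpen D) (hb : Bornology.IsBounded D) {z₀ : ℂ} (hz₀ : z₀ ∈ D) :
    ∃ f : ℂ → ℂ, DifferentiableOn ℂ f D ∧ InjOn f D ∧ f '' D = ball 0 1 ∧ f z₀ = 0 := by
  -- the family
  let Fam : Set (ℂ → ℂ) := {f | DifferentiableOn ℂ f D ∧ InjOn f D ∧ MapsTo f D (ball 0 1) ∧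
    f z₀ = 0}
  -- a first member
  obtain ⟨R, hR0, hR⟩ := hb.subset_ball_lt 0 z₀
  have hne : (fun z => (z - z₀) / (R : ℂ)) ∈ Fam := by
    have hRc : (R : ℂ) ≠ 0 := by exact_mod_cast hR0.ne'
    refine ⟨?_, ?_, ?_, ?_⟩
    · exact ((differentiable_id.sub_const z₀).div_const _).differentiableOn
    · intro x _ y _ hxy
      have h1 : (x - z₀) / (R : ℂ) = (y - z₀) / (R : ℂ) := hxy
      have h2 : x - z₀ = y - z₀ := by
        field_simp at h1
        exact h1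
      exact sub_left_injective h2
    · intro z hz
      have h1 := hR hz
      rw [mem_ball, dist_eq_norm] at h1
      rw [mem_ball_zero_iff, norm_div, Complex.norm_real, Real.norm_of_nonneg hR0.le,
        div_lt_one hR0]
      exact h1
    · simp
  have hder0 : deriv (fun z => (z - z₀) / (R : ℂ)) z₀ = 1 / (R : ℂ) := by
    have : HasDerivAt (fun z => (z - z₀) / (R : ℂ)) (1 / (R : ℂ)) z₀ :=
      ((hasDerivAt_id z₀).sub_const z₀).div_const _
    exact this.deriv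
  -- Cauchy bound
  obtain ⟨r, hr0, hr⟩ := Metric.nhds_basis_closedBall.mem_iff.mp (hD.mem_nhds hz₀)
  have hcau : ∀ f ∈ Fam, ‖deriv f z₀‖ ≤ 1 / r := by
    rintro f ⟨hf1, _, hf3, _⟩
    apply Complex.norm_deriv_le_of_forall_mem_sphere_norm_le hr0
    · apply DifferentiableOn.diffContOnCl
      rw [closure_ball _ hr0.ne']
      exact hf1.mono hr
    · intro z hz
      have h1 := hf3 (hr (sphere_subset_closedBall hz))
      rw [mem_ball_zero_iff] at h1
      exact h1.le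
  let S : Set ℝ := (fun f => ‖deriv f z₀‖) '' Fam
  have hSne : S.Nonempty := ⟨_, _, hne, rfl⟩
  have hSb : BddAbove S := ⟨1 / r, by
    rintro _ ⟨f, hf, rfl⟩
    exact hcau f hf⟩
  set M := sSup S with hM
  have hMpos : 0 < M := by
    have h1 : ‖deriv (fun z => (z - z₀) / (R : ℂ)) z₀‖ ≤ M := le_csSup hSb ⟨_, hne, rfl⟩
    rw [hder0] at h1
    have h2 : 0 < ‖(1 / (R : ℂ))‖ := by
      rw [norm_pos_iff]
      have hRc : (R : ℂ) ≠ 0 := by exact_mod_cast hR0.ne'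
      exact one_div_ne_zero hRc
    linarith
  have hseq : ∀ n : ℕ, ∃ f ∈ Fam, M - 1 / ((n : ℝ) + 1) < ‖deriv f z₀‖ := by
    intro n
    have h1 : M - 1 / ((n : ℝ) + 1) < sSup S := by
      have : 0 < 1 / ((n : ℝ) + 1) := by positivity
      linarith
    obtain ⟨_, ⟨f, hf, rfl⟩, h2⟩ := exists_lt_of_lt_csSup hSne h1
    exact ⟨f, hf, h2⟩
  choose F hF hFM using hseq
  obtain ⟨f, hf⟩ := h4a F (fun n => (hF n).1) (fun n z hz => by
    have h1 := (hF n).2.2.1 hz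
    rw [mem_ball_zero_iff] at h1
    exact h1.le) (hyperfilter ℕ)
  have hfd : DifferentiableOn ℂ f D :=
    hf.differentiableOn (Eventually.of_forall (fun n => (hF n).1)) hD
  have hfder := hf.deriv (Eventually.of_forall (fun n => (hF n).1)) hD
  have hlim1 : Tendsto (fun n => ‖deriv (F n) z₀‖) (hyperfilter ℕ : Filter ℕ)
      (𝓝 ‖deriv f z₀‖) := by
    have h1 := hfder.tendsto_at hz₀
    exact h1.norm
  have hlim2 : Tendsto (fun n => ‖deriv (F n) z₀‖) (hyperfilter ℕ : Filter ℕ) (𝓝 M) := by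
    have h1 : Tendsto (fun n : ℕ => M - 1 / ((n : ℝ) + 1)) (hyperfilter ℕ : Filter ℕ) (𝓝 M) := by
      have h2 : Tendsto (fun n : ℕ => M - 1 / ((n : ℝ) + 1)) atTop (𝓝 (M - 0)) :=
        tendsto_const_nhds.sub tendsto_one_div_add_atTop_nhds_zero_nat
      rw [sub_zero] at h2
      exact h2.mono_left Nat.hyperfilter_le_atTop
    refine tendsto_of_tendsto_of_tendsto_of_le_of_le h1 tendsto_const_nhds ?_ ?_
    · intro n
      exact (hFM n).le
    · intro n
      exact le_csSup hSb ⟨_, hF n, rfl⟩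
  have hfM : ‖deriv f z₀‖ = M := tendsto_nhds_unique hlim1 hlim2
  have hfne : deriv f z₀ ≠ 0 := by
    rw [← norm_pos_iff, hfM]
    exact hMpos
  have hf0 : f z₀ = 0 := by
    have h1 := hf.tendsto_at hz₀
    have h2 : (fun n => F n z₀) = fun _ => 0 := by
      ext n
      exact (hF n).2.2.2
    rw [h2] at h1
    exact tendsto_nhds_unique h1 tendsto_const_nhds |>.symm ▸ rfl
  have hfi : InjOn f D := h4b _ F f (fun n => (hF n).1) (fun n => (hF n).2.1) hf
    ⟨z₀, hz₀, hfne⟩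
  have hfle : ∀ z ∈ D, ‖f z‖ ≤ 1 := by
    intro z hz
    have h1 := (hf.tendsto_at hz).norm
    refine le_of_tendsto h1 (Eventually.of_forall (fun n => ?_))
    have h2 := (hF n).2.2.1 hz
    rw [mem_ball_zero_iff] at h2
    exact h2.le
  have hfo := h5 f hfd hfi
  have hfm : MapsTo f D (ball 0 1) := by
    have h1 : f '' D ⊆ closedBall 0 1 := by
      rintro _ ⟨z, hz, rfl⟩
      rw [mem_closedBall_zero_iff]
      exact hfle z hz
    have h2 : f '' D ⊆ interior (closedBall 0 1) := interior_maximal h1 hfo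
    rw [interior_closedBall _ one_ne_zero] at h2
    intro z hz
    exact h2 ⟨z, hz, rfl⟩
  refine ⟨f, hfd, hfi, ?_, hf0⟩
  apply Subset.antisymm
  · rintro _ ⟨z, hz, rfl⟩
    exact hfm hz
  · intro w hw
    by_contra hwf
    obtain ⟨ψ, hψ1, hψ2, hψ3, hψ4, hψ5⟩ := h4c f hfd hfi hfm z₀ hz₀ hf0 hfne w hw hwf
    have h1 : ‖deriv ψ z₀‖ ≤ M := le_csSup hSb ⟨ψ, ⟨hψ1, hψ2, hψ3, hψ4⟩, rfl⟩
    rw [hfM] at hψ5
    linarith

end Pool.Agent.EN
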