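import Pool.Agent.Helper5.Ends.Riemann
import Pool.Agent.Helper6.Ends.Inverse
import Pool.Agent.Helper6.Ends.UltraLim
import Pool.Agent.Helper28.Ends.Hurwitz
import Pool.Agent.Helper45.Ends.KoebeStep

/-!
# EN-4d: the Riemann mapping theorem for bounded domains
-/

set_option autoImplicit false

open Set Filter Metric Topology MeasureTheory

namespace Pool.Agent.EN

/-- EN-4d -/
theorem riemann_map {D : Set ℂ} (hD : IsOpen D) (hc : IsPreconnected D)
    (hb : Bornology.IsBounded D) (hP : HasPrim D) {z₀ : ℂ} (hz₀ : z₀ ∈ D) :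
    ∃ f : ℂ → ℂ, DifferentiableOn ℂ f D ∧ InjOn f D ∧ f '' D = ball 0 1 ∧ f z₀ = 0 := by
  refine riemann_map_of ?_ ?_ ?_ ?_ hD hb hz₀
  · intro F h1 h2 U
    exact exists_ultralim hD F h1 h2 U
  · intro l _ F f h1 h2 h3 h4
    exact hurwitz_inj hD hc h1 h2 h3 h4
  · intro f h1 h2 h3 z hz h4 h5 w h6 h7
    exact koebe_step hD hc hP h1 h2 h3 hz h4 h5 h6 h7
  · intro f h1 h2
    exact (exists_inverse hD h1 h2).1

end Pool.Agent.EN
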